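import Pool.Agent.H27.LV.Targets2
import Pool.Agent.H64.SC.Api
import Pool.Agent.H36.SC.V6

/-!
# MP_70ba79_ag: module DFI, a derivation has finitely many zeros and poles
-/

set_option autoImplicit false

namespace Pool.Agent.H58.LV

open Pool.Agent.H27.LV _root_.SC

section

variable {k K : Type} [Field k] [Field K] [Algebra k K]

/-- separable equation of a function over the coordinate ring of a line -/
lemma dfi_poly [CharZero k] (A0 : Subalgebra k K) (y : K) (h : IsAlgebraic A0 y) :
    ∃ g : Polynomial A0, Polynomial.aeval y g = 0 ∧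
      Polynomial.aeval y (Polynomial.derivative g) ≠ 0 := by
  classical
  obtain ⟨p, hp0, hp⟩ := h
  obtain ⟨g, ⟨hg0, hg⟩, hmin⟩ := (measure (fun q : Polynomial A0 => q.natDegree)).wf.has_min
    {q : Polynomial A0 | q ≠ 0 ∧ Polynomial.aeval y q = 0} ⟨p, hp0, hp⟩
  refine ⟨g, hg, fun h1 => ?_⟩
  have hcz : CharZero A0 := charZero_of_injective_algebraMap (algebraMap k A0).injective
  have hdeg : g.natDegree ≠ 0 := by
    intro h0
    rw [Polynomial.eq_C_of_natDegree_eq_zero h0, Polynomial.aeval_C] at hg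
    apply hg0
    rw [Polynomial.eq_C_of_natDegree_eq_zero h0]
    have h2 : g.coeff 0 = 0 := by
      apply Subtype.ext
      exact hg
    rw [h2, Polynomial.C_0]
  have hd0 : Polynomial.derivative g ≠ 0 := by
    intro h0
    exact hdeg (Polynomial.natDegree_eq_zero_of_derivative_eq_zero h0)
  exact hmin _ ⟨hd0, h1⟩ (Polynomial.natDegree_derivative_lt hdeg)

/-- functions `z` of the ring `A` for which `z - a` is a multiple of `t`, up to units at `v` -/
def sat (v : DV k K) (t : K) (A : Subalgebra k K) : Subalgebra k K where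
  carrier := {z | z ∈ A ∧ ∃ a : k, ∃ f ∈ A, f ≠ 0 ∧ v.ord f = 0 ∧ ∃ w ∈ A,
    f * (z - algebraMap k K a) = t * w}
  mul_mem' := by
    rintro z1 z2 ⟨hz1, a1, f1, hf1, h1, o1, w1, hw1, e1⟩ ⟨hz2, a2, f2, hf2, h2, o2, w2, hw2, e2⟩
    refine ⟨A.mul_mem hz1 hz2, a1 * a2, f1 * f2, A.mul_mem hf1 hf2, mul_ne_zero h1 h2,
      by rw [v.ord_mul _ _ h1 h2, o1, o2, add_zero],
      f1 * z1 * w2 + f2 * algebraMap k K a2 * w1,
      A.add_mem (A.mul_mem (A.mul_mem hf1 hz1) hw2)
        (A.mul_mem (A.mul_mem hf2 (A.algebraMap_mem a2)) hw1), ?_⟩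
    rw [map_mul]
    linear_combination (f2 * algebraMap k K a2) * e1 + (f1 * z1) * e2
  add_mem' := by
    rintro z1 z2 ⟨hz1, a1, f1, hf1, h1, o1, w1, hw1, e1⟩ ⟨hz2, a2, f2, hf2, h2, o2, w2, hw2, e2⟩
    refine ⟨A.add_mem hz1 hz2, a1 + a2, f1 * f2, A.mul_mem hf1 hf2, mul_ne_zero h1 h2,
      by rw [v.ord_mul _ _ h1 h2, o1, o2, add_zero],
      f2 * w1 + f1 * w2, A.add_mem (A.mul_mem hf2 hw1) (A.mul_mem hf1 hw2), ?_⟩
    rw [map_add]
    linear_combination f2 * e1 + f1 * e2
  algebraMap_mem' := by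
    intro r
    exact ⟨A.algebraMap_mem r, r, 1, A.one_mem, one_ne_zero, v.ord_one, 0, A.zero_mem, by simp⟩

lemma mem_sat {v : DV k K} {t : K} {A : Subalgebra k K} {z : K} : z ∈ sat v t A ↔
    z ∈ A ∧ ∃ a : k, ∃ f ∈ A, f ≠ 0 ∧ v.ord f = 0 ∧ ∃ w ∈ A,
    f * (z - algebraMap k K a) = t * w := Iff.rfl

/-- the constant of a function which vanishes at `v` is zero -/
lemma const_zero {v : DV k K} {t z f w : K} {a : k} (ht : t ≠ 0) (ht1 : 1 ≤ v.ord t)
    (hz : z = 0 ∨ 1 ≤ v.ord z) (hf : f ≠ 0) (hf0 : v.ord f = 0) (hw : 0 ≤ v.ord w)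
    (h : f * (z - algebraMap k K a) = t * w) : a = 0 := by
  by_contra ha
  have ha' : algebraMap k K a ≠ 0 := by simpa using ha
  have h1 : z - algebraMap k K a ≠ 0 ∧ v.ord (z - algebraMap k K a) = 0 := by
    by_cases hz0 : z = 0
    · rw [hz0, zero_sub]
      exact ⟨neg_ne_zero.mpr ha', by rw [v.ord_neg, v.ord_base]⟩
    · have hz1 : 1 ≤ v.ord z := hz.resolve_left hz0
      have hne : z - algebraMap k K a ≠ 0 := by
        intro h0
        rw [sub_eq_zero] at h0
        rw [h0, v.ord_base] at hz1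
        omega
      refine ⟨hne, ?_⟩
      have h2 := v.ord_add_eq_left (x := -algebraMap k K a) (y := z) (neg_ne_zero.mpr ha')
        (fun _ => by rw [v.ord_neg, v.ord_base]; omega)
      rw [v.ord_neg, v.ord_base] at h2
      rw [sub_eq_neg_add]
      exact h2.2
  have h2 : v.ord (f * (z - algebraMap k K a)) = 0 := by
    rw [v.ord_mul _ _ hf h1.1, hf0, h1.2, add_zero]
  have h3 : f * (z - algebraMap k K a) ≠ 0 := mul_ne_zero hf h1.1
  rw [h] at h2 h3
  have h4 : w ≠ 0 := right_ne_zero_of_mul h3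
  rw [v.ord_mul _ _ ht h4] at h2
  omega

/-- an algebraic function satisfying a separable equation at `v` -/
lemma alg_mem_sat {v : DV k K} {t : K} {A A0 : Subalgebra k K} (hA : ∀ z ∈ A, 0 ≤ v.ord z)
    (ht : t ≠ 0) (ht1 : 1 ≤ v.ord t) (htA : t ∈ A) (h0 : A0 ≤ sat v t A) (h0A : A0 ≤ A) (y : K) (hy : y ∈ A)
    (g : Polynomial A0) (hg : Polynomial.aeval y g = 0)
    (hg' : Polynomial.aeval y (Polynomial.derivative g) ≠ 0)
    (hg0 : v.ord (Polynomial.aeval y (Polynomial.derivative g)) = 0) (d : k)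
    (hd : ge v 1 (y - algebraMap k K d)) : y ∈ sat v t A := by
  let φ : A0 →+* A := (Subalgebra.inclusion h0A).toRingHom
  let G : Polynomial A := g.map φ
  let Y : A := ⟨y, hy⟩
  let d' : A := algebraMap k A d
  have hev : ∀ (p : Polynomial A0) (z : A), ((Polynomial.eval z (p.map φ) : A) : K) =
      Polynomial.aeval (z : K) p := by
    intro p z
    rw [Polynomial.eval_map, Polynomial.aeval_def]
    have h1 := Polynomial.hom_eval₂ p φ (algebraMap A K) z
    exact h1
  obtain ⟨κ, hκ⟩ := Polynomial.binomExpansion G Y (d' - Y)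
  rw [add_sub_cancel] at hκ
  have hG0 : Polynomial.eval Y G = 0 := by
    apply Subtype.ext
    exact (hev g Y).trans hg
  have hG1 : ((Polynomial.eval Y (Polynomial.derivative G) : A) : K) =
      Polynomial.aeval y (Polynomial.derivative g) := by
    rw [Polynomial.derivative_map]
    exact hev (Polynomial.derivative g) Y
  -- value at the constant point lies in the ring of the line
  have hmem : ((Polynomial.eval d' G : A) : K) ∈ sat v t A := by
    apply h0
    have h1 : ((Polynomial.eval (algebraMap k A0 d) g : A0) : K) =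
        ((Polynomial.eval d' G : A) : K) := by
      rw [hev g d']
      have h2 := Polynomial.aeval_algebraMap_apply K (algebraMap k A0 d) g
      rw [Polynomial.coe_aeval_eq_eval] at h2
      exact h2.symm
    rw [← h1]
    exact Subtype.mem _
  have hK := congrArg (Subtype.val : A → K) hκ
  rw [hG0, zero_add] at hK
  have hK' : ((Polynomial.eval d' G : A) : K) =
      Polynomial.aeval y (Polynomial.derivative g) * (algebraMap k K d - y) +
        (κ : K) * (algebraMap k K d - y) ^ 2 := by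
    rw [← hG1]
    exact hK
  obtain ⟨-, a, f, hfA, hf, hf0, w, hwA, e⟩ := hmem
  set s : K := algebraMap k K d - y with hs
  set r : K := Polynomial.aeval y (Polynomial.derivative g) with hr
  have hrA : r ∈ A := by
    rw [← hG1]
    exact Subtype.mem _
  have hdA : algebraMap k K d ∈ A := A.algebraMap_mem d
  have hsA : s ∈ A := A.sub_mem hdA hy
  have hs1 : s = 0 ∨ 1 ≤ v.ord s := by
    rcases hd with h | h
    · left
      rw [hs, ← neg_sub, h, neg_zero]
    · right
      rwa [hs, ← neg_sub, v.ord_neg]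
  set u : K := r + κ * s with hu
  have huA : u ∈ A := A.add_mem hrA (A.mul_mem κ.2 hsA)
  have hu0 : u ≠ 0 ∧ v.ord u = 0 := by
    have h1 : ∀ z : K, (z = 0 ∨ 1 ≤ v.ord z) → r + z ≠ 0 ∧ v.ord (r + z) = 0 := by
      intro z hz
      rcases hz with h | h
      · rw [h, add_zero]; exact ⟨hg', hg0⟩
      · have h2 := v.ord_add_eq_left (x := r) (y := z) hg' (fun _ => by rw [hg0]; omega)
        refine ⟨fun h3 => ?_, h2.2.trans hg0⟩
        have h4 : z = -r := by linear_combination h3
        rw [h4, v.ord_neg, hg0] at h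
        omega
    apply h1
    by_cases h2 : (κ : K) * s = 0
    · exact Or.inl h2
    right
    have h3 : (κ : K) ≠ 0 := left_ne_zero_of_mul h2
    have h4 : s ≠ 0 := right_ne_zero_of_mul h2
    rw [v.ord_mul _ _ h3 h4]
    have h5 := hA κ κ.2
    have h6 := hs1.resolve_left h4
    omega
  have hGs : ((Polynomial.eval d' G : A) : K) = s * u := by
    rw [hK', hu]; ring
  have hsu : s * u = 0 ∨ 1 ≤ v.ord (s * u) := by
    rcases hs1 with h | h
    · left; rw [h, zero_mul]
    · by_cases h4 : s = 0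
      · left; rw [h4, zero_mul]
      right
      rw [v.ord_mul _ _ h4 hu0.1, hu0.2]
      omega
  rw [hGs] at e
  have ha : a = 0 := const_zero ht ht1 hsu hf hf0 (hA w hwA) e
  rw [ha, map_zero, sub_zero] at e
  refine ⟨hy, d, f * u, A.mul_mem hfA huA, mul_ne_zero hf hu0.1,
    by rw [v.ord_mul _ _ hf hu0.1, hf0, hu0.2, add_zero], -w, A.neg_mem hwA, ?_⟩
  rw [hs] at e
  linear_combination -e

/-- the orders of the elements of `A` are multiples of the order of `t` -/
lemma dvd_ord {v : DV k K} {t : K} {A : Subalgebra k K} (hA : ∀ z ∈ A, 0 ≤ v.ord z)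
    (ht : t ≠ 0) (ht1 : 1 ≤ v.ord t) (hS : A ≤ sat v t A) :
    ∀ (n : ℕ) (z : K), z ∈ A → z ≠ 0 → (v.ord z).toNat ≤ n → v.ord t ∣ v.ord z := by
  intro n
  induction n with
  | zero =>
    intro z hz hz0 hn
    have h1 := hA z hz
    have h2 : v.ord z = 0 := by omega
    rw [h2]
    exact dvd_zero _
  | succ n ih =>
    intro z hz hz0 hn
    have h1 := hA z hz
    by_cases h2 : v.ord z = 0
    · rw [h2]
      exact dvd_zero _
    obtain ⟨-, a, f, hfA, hf, hf0, w, hwA, e⟩ := hS hz
    have ha : a = 0 := const_zero ht ht1 (Or.inr (by omega)) hf hf0 (hA w hwA) e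
    rw [ha, map_zero, sub_zero] at e
    have h3 : f * z ≠ 0 := mul_ne_zero hf hz0
    have h4 : w ≠ 0 := by
      intro h
      rw [h, mul_zero] at e
      exact h3 e
    have h5 : v.ord z = v.ord t + v.ord w := by
      have h6 := congrArg v.ord e
      rw [v.ord_mul _ _ hf hz0, v.ord_mul _ _ ht h4, hf0, zero_add] at h6
      exact h6
    rw [h5]
    exact dvd_add (dvd_refl _) (ih w hwA h4 (by omega))

theorem dfi (hDOR : T_DOR) (hPFM : T_PFM) (hRAT : T_RAT) : T_DFI := by
  classical
  intro k K _ _ _ _ _ _ htr D hD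
  by_cases hne : Nonempty (DV k K)
  swap
  · exact Set.Finite.subset Set.finite_empty (fun v _ => absurd ⟨v⟩ hne)
  obtain ⟨v0⟩ := hne
  let x : K := v0.unif
  have hx1 : v0.ord x = 1 := v0.ord_unif
  have hxt : Transcendental k x := by
    intro h
    have h1 := Pool.Agent.H36.SC.ord_eq_zero_of_isAlgebraic v0 h
    omega
  have hDx : D x ≠ 0 := (hDOR k K htr D hD v0).1
  let A0 : Subalgebra k K := Algebra.adjoin k {x}
  have halg : Algebra.IsAlgebraic A0 K := by
    have h1 : AlgebraicIndependent k (fun _ : Unit => x) := by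
      rw [algebraicIndependent_unique_type_iff]
      exact hxt
    have h2 : IsTranscendenceBasis k (fun _ : Unit => x) :=
      h1.isTranscendenceBasis_of_trdeg_le_of_finite (by rw [htr]; simp)
    have h3 := h2.isAlgebraic
    rw [Set.range_const] at h3
    exact h3
  have hpoly : ∀ y : K, ∃ g : Polynomial A0, Polynomial.aeval y g = 0 ∧
      Polynomial.aeval y (Polynomial.derivative g) ≠ 0 :=
    fun y => dfi_poly A0 y (halg.isAlgebraic y)
  choose g hg hg' using hpoly
  obtain ⟨σ, hσ⟩ := (Algebra.essFiniteType_iff k K).mp inferInstance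
  let A : Subalgebra k K := Algebra.adjoin k (insert x (σ : Set K))
  have hfin : ({v : DV k K | v.ord x ≠ 0} ∪ {v : DV k K | v.ord (D x) ≠ 0} ∪
      ⋃ y ∈ σ, ({v : DV k K | v.ord y ≠ 0} ∪
        {v : DV k K | v.ord (Polynomial.aeval y (Polynomial.derivative (g y))) ≠ 0})).Finite := by
    refine Set.Finite.union (Set.Finite.union (hPFM k K htr _).1 (hPFM k K htr _).1) ?_
    refine Set.Finite.biUnion σ.finite_toSet fun y _ => ?_
    exact Set.Finite.union (hPFM k K htr _).1 (hPFM k K htr _).1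
  refine hfin.subset ?_
  intro v hv
  by_contra hcon
  apply hv
  simp only [Set.mem_union, Set.mem_iUnion, Set.mem_ofPred_eq, not_or, not_exists, not_not] at hcon
  obtain ⟨⟨hvx, hvD⟩, hvσ⟩ := hcon
  -- residue of `x`
  have hrat := (hRAT k K htr v).2
  obtain ⟨c, hc⟩ := hrat x hvx.ge
  let t : K := x - algebraMap k K c
  have ht : t ≠ 0 := by
    intro h
    rw [sub_eq_zero] at h
    exact hxt (by rw [h]; exact isAlgebraic_algebraMap c)
  have ht1 : 1 ≤ v.ord t := hc.resolve_left ht
  have hA : ∀ z ∈ A, 0 ≤ v.ord z := by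
    intro z hz
    refine Algebra.adjoin_induction (fun y hy => ?_) (fun r => ?_) (fun a b _ _ ha hb => ?_)
      (fun a b _ _ ha hb => ?_) hz
    · rcases hy with rfl | hy
      · exact hvx.ge
      · exact (hvσ y hy).1.ge
    · rw [v.ord_base]
    · exact v.ord_add_nonneg ha hb
    · exact v.ord_mul_nonneg ha hb
  have hxA : x ∈ A := Algebra.subset_adjoin (Set.mem_insert _ _)
  have htA : t ∈ A := A.sub_mem hxA (A.algebraMap_mem c)
  have h0A : A0 ≤ A := Algebra.adjoin_le (by
    rintro y rfl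
    exact hxA)
  have h0S : A0 ≤ sat v t A := Algebra.adjoin_le (by
    rintro y rfl
    exact ⟨hxA, c, 1, A.one_mem, one_ne_zero, v.ord_one, 1, A.one_mem, by
      rw [one_mul, mul_one]⟩)
  have hS : A ≤ sat v t A := by
    refine Algebra.adjoin_le ?_
    intro y hy
    rcases hy with rfl | hy
    · exact h0S (Algebra.subset_adjoin rfl)
    · have hyA : y ∈ A := Algebra.subset_adjoin (Set.mem_insert_of_mem _ hy)
      obtain ⟨d, hd⟩ := hrat y (hvσ y hy).1.ge
      exact alg_mem_sat hA ht ht1 htA h0S h0A y hyA (g y) (hg y) (hg' y) (hvσ y hy).2 d hd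
  have hdvd : ∀ z : K, z ≠ 0 → v.ord t ∣ v.ord z := by
    intro z hz
    obtain ⟨b, hb, hbu, hzb⟩ := hσ z
    have hb0 : b ≠ 0 := hbu.ne_zero
    have hle : Algebra.adjoin k (σ : Set K) ≤ A := Algebra.adjoin_mono (Set.subset_insert _ _)
    have h1 := dvd_ord hA ht ht1 hS _ b (hle hb) hb0 le_rfl
    have h2 := dvd_ord hA ht ht1 hS _ (z * b) (hle hzb) (mul_ne_zero hz hb0) le_rfl
    rw [v.ord_mul _ _ hz hb0] at h2
    exact (dvd_add_left h1).mp h2
  have he : v.ord t = 1 := by
    have h1 := hdvd v.unif v.unif_ne_zero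
    rw [v.ord_unif] at h1
    exact le_antisymm (Int.le_of_dvd one_pos h1) ht1
  have hDt : D t = D x := by
    simp only [t, map_sub, Derivation.map_algebraMap, sub_zero]
  have h3 := ((hDOR k K htr D hD v).2.2 t (by omega)).2
  rw [hDt, hvD, he] at h3
  omega

end

end Pool.Agent.H58.LV
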