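import Pool.Agent.H27.LV.Targets
import Pool.Agent.H27.LV.Basic

/-!
# MP_70ba79_ag: module HYC
-/

set_option autoImplicit false

namespace Pool.Agent.H58.LV

open MvPolynomial Pool.Agent.H27.LV

lemma hyc_repr (hALP : T_ALP) (hSPL : T_SPL) {k : Type} [Field k] (n d : ℕ)
    (c : Fin (n + 1) → k) (b : Fin (n + 1)) (hb : c b ≠ 0)
    (g : MvPolynomial (Fin (n + 1)) k) (hg : g.IsHomogeneous (d + 1)) :
    ∃ (s : Mon (n + 1) d → k) (t : Mon n (d + 1) → k),
      g = ∑ p, C (s p) * (lin c * mono k p.1) + ∑ q, C (t q) * mono k (insm b q) := by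
  classical
  obtain ⟨e, -, -⟩ := hSPL n d b
  let e' : Mon (n + 1) d ⊕ Mon n (d + 1) ≃ Mon (n + 1) (d + 1) := (Equiv.sumComm _ _).trans e
  have hdet : ((alB d c b).submatrix e' id).det ≠ 0 := by
    rcases hALP k n d c b e' with h | h <;> rw [h]
    · exact pow_ne_zero _ hb
    · exact neg_ne_zero.mpr (pow_ne_zero _ hb)
  have hunit : IsUnit ((alB d c b).submatrix e' id) := by
    rw [Matrix.isUnit_iff_isUnit_det]
    exact isUnit_iff_ne_zero.mpr hdet
  obtain ⟨w, hw⟩ := (Matrix.mulVec_surjective_iff_isUnit.mpr hunit) (fun r => g.coeff (fs (e' r).1))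
  have hcoef : ∀ p : Mon (n + 1) (d + 1), g.coeff (fs p.1) = ∑ r, alB d c b p r * w r := by
    intro p
    have := congrFun hw (e'.symm p)
    simp only [Matrix.mulVec, dotProduct, Matrix.submatrix_apply, id, Equiv.apply_symm_apply] at this
    exact this.symm
  refine ⟨fun p => w (Sum.inl p), fun q => w (Sum.inr q), ?_⟩
  have hhom : (∑ p : Mon (n + 1) d, C (w (Sum.inl p)) * (lin c * mono k p.1) +
      ∑ q : Mon n (d + 1), C (w (Sum.inr q)) * mono k (insm b q)).IsHomogeneous (d + 1) := by
    refine IsHomogeneous.add ?_ ?_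
    · refine IsHomogeneous.sum _ _ _ fun p _ => ?_
      have h1 := (isHomogeneous_C (Fin (n + 1)) (w (Sum.inl p))).mul
        ((isHomogeneous_lin c).mul (isHomogeneous_mono (K := k) p))
      have h2 : 0 + (1 + d) = d + 1 := by omega
      rwa [h2] at h1
    · refine IsHomogeneous.sum _ _ _ fun q _ => ?_
      have h1 := (isHomogeneous_C (Fin (n + 1)) (w (Sum.inr q))).mul
        (isHomogeneous_mono_insm (K := k) b q)
      rwa [zero_add] at h1
  rw [dec hg, dec hhom]
  refine Finset.sum_congr rfl fun p _ => ?_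
  congr 2
  rw [hcoef p, Fintype.sum_sum_type, coeff_add, coeff_sum, coeff_sum]
  congr 1
  · refine Finset.sum_congr rfl fun r _ => ?_
    rw [coeff_C_mul]
    simp only [alB, Matrix.of_apply]
    ring
  · refine Finset.sum_congr rfl fun r _ => ?_
    rw [coeff_C_mul]
    simp only [alB, Matrix.of_apply]
    ring

theorem hyc (hALP : T_ALP) (hSPL : T_SPL) : T_HYC := by
  classical
  intro k _ n d ι _ a φ c I hφ hc hI
  obtain ⟨b, hb⟩ : ∃ b, c b ≠ 0 := by
    by_contra h
    push Not at h
    exact hc (funext h)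
  let T : (Mon n (d + 1) → k) →ₗ[k] (I → k) :=
    { toFun := fun t i => ∑ q, t q * eval (a i.1) (mono k (insm b q))
      map_add' := by
        intro s t
        funext i
        simp only [Pi.add_apply, add_mul, Finset.sum_add_distrib]
      map_smul' := by
        intro r t
        funext i
        simp only [Pi.smul_apply, smul_eq_mul, RingHom.id_apply, Finset.mul_sum, mul_assoc] }
  have hsurj : Function.Surjective T := by
    intro w
    let g : MvPolynomial (Fin (n + 1)) k := ∑ i : I, C (w i) * φ i.1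
    have hg : g.IsHomogeneous (d + 1) := by
      refine IsHomogeneous.sum _ _ _ fun i _ => ?_
      have h1 := (isHomogeneous_C (Fin (n + 1)) (w i)).mul (hφ.homog i.1)
      rwa [zero_add] at h1
    obtain ⟨s, t, hst⟩ := hyc_repr hALP hSPL n d c b hb g hg
    refine ⟨t, ?_⟩
    funext i
    have h1 : eval (a i.1) g = w i := by
      simp only [g, map_sum, map_mul, eval_C]
      rw [Finset.sum_eq_single i]
      · rw [hφ.eval_same, mul_one]
      · intro j _ hj
        rw [hφ.eval_ne j.1 i.1 (fun h => hj (Subtype.ext h)), mul_zero]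
      · simp
    have h2 : eval (a i.1) (lin c) = 0 := by
      simp only [lin, map_sum, map_mul, eval_C, eval_X]
      exact hI i.1 i.2
    have h3 : eval (a i.1) g = ∑ q, t q * eval (a i.1) (mono k (insm b q)) := by
      rw [hst]
      simp only [map_add, map_sum, map_mul, eval_C, h2, zero_mul, mul_zero, Finset.sum_const_zero,
        zero_add]
    change ∑ q, t q * eval (a i.1) (mono k (insm b q)) = w i
    rw [← h3, h1]
  have h := LinearMap.finrank_le_finrank_of_surjective hsurj
  rw [Module.finrank_fintype_fun_eq_card, Module.finrank_fintype_fun_eq_card] at h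
  simpa using h

end Pool.Agent.H58.LV
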